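import Pool.Agent.W401.Gal.ProdDefs

/-! Representations over the residue fields at infinitely many primes glue to a complex
representation. -/

set_option autoImplicit false

namespace Pool.Agent.W375.CH

open NumberField IsDedekindDomain Polynomial

variable (F : Type) [Field F] [NumberField F] (Λ : Set (HeightOneSpectrum (𝓞 F)))

/-- the product of the residue rings -/
abbrev PR : Type := ∀ l : Λ, 𝓞 F ⧸ (l : HeightOneSpectrum (𝓞 F)).asIdeal

/-- the ideal of the elements of finite support -/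
def I0 : Ideal (PR F Λ) where
  carrier := {f | {l | f l ≠ 0}.Finite}
  add_mem' := by
    intro a b ha hb
    refine (ha.union hb).subset ?_
    intro l hl
    by_contra h
    simp only [Set.mem_union, Set.mem_ofPred_eq, not_or, not_not] at h
    apply hl
    rw [Pi.add_apply, h.1, h.2, add_zero]
  zero_mem' := by simp
  smul_mem' := by
    intro c a ha
    refine ha.subset ?_
    intro l hl h
    apply hl
    simp only [smul_eq_mul, Pi.mul_apply]
    rw [h, mul_zero]

lemma mem_I0 (f : PR F Λ) : f ∈ I0 F Λ ↔ {l | f l ≠ 0}.Finite := Iff.rfl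

/-- the quotient -/
abbrev SR : Type := PR F Λ ⧸ I0 F Λ

/-- the map of the ring of integers -/
def th : 𝓞 F →+* SR F Λ :=
  (Ideal.Quotient.mk (I0 F Λ)).comp
    (RingHom.pi fun l : Λ => Ideal.Quotient.mk (l : HeightOneSpectrum (𝓞 F)).asIdeal)

lemma nontriv (hΛ : Λ.Infinite) : Nontrivial (SR F Λ) := by
  rw [Ideal.Quotient.nontrivial_iff]
  intro h
  have h1 : (1 : PR F Λ) ∈ I0 F Λ := by rw [h]; trivial
  rw [mem_I0] at h1
  have h2 : {l : Λ | (1 : PR F Λ) l ≠ 0} = Set.univ := by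
    ext l
    simp only [Set.mem_ofPred_eq, Set.mem_univ, iff_true, Pi.one_apply]
    have : Nontrivial (𝓞 F ⧸ (l : HeightOneSpectrum (𝓞 F)).asIdeal) :=
      Ideal.Quotient.nontrivial_iff.mpr (l : HeightOneSpectrum (𝓞 F)).isPrime.ne_top
    exact one_ne_zero
  rw [h2] at h1
  have : Infinite Λ := hΛ.to_subtype
  exact Set.infinite_univ h1

lemma th_unit (a : 𝓞 F) (ha : a ≠ 0) : IsUnit (th F Λ a) := by
  classical
  have hmax : ∀ l : Λ, (l : HeightOneSpectrum (𝓞 F)).asIdeal.IsMaximal := fun l =>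
    (l : HeightOneSpectrum (𝓞 F)).isMaximal
  have hex : ∀ l : Λ, ∃ b : 𝓞 F ⧸ (l : HeightOneSpectrum (𝓞 F)).asIdeal,
      a ∉ (l : HeightOneSpectrum (𝓞 F)).asIdeal →
        Ideal.Quotient.mk (l : HeightOneSpectrum (𝓞 F)).asIdeal a * b = 1 := by
    intro l
    by_cases h : a ∈ (l : HeightOneSpectrum (𝓞 F)).asIdeal
    · exact ⟨0, fun h' => absurd h h'⟩
    · have := hmax l
      obtain ⟨b, hb⟩ := Ideal.Quotient.exists_inv
        (a := Ideal.Quotient.mk (l : HeightOneSpectrum (𝓞 F)).asIdeal a)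
        (fun h0 => h (Ideal.Quotient.eq_zero_iff_mem.mp h0))
      exact ⟨b, fun _ => hb⟩
  choose b hb using hex
  refine IsUnit.of_mul_eq_one (Ideal.Quotient.mk (I0 F Λ) b) ?_
  rw [th, RingHom.comp_apply, ← map_mul, ← map_one (Ideal.Quotient.mk (I0 F Λ)),
    Ideal.Quotient.mk_eq_mk_iff_sub_mem, mem_I0]
  have hfin := Ideal.finite_factors (I := Ideal.span {a}) (by simpa using ha)
  refine (hfin.preimage (f := fun l : Λ => (l : HeightOneSpectrum (𝓞 F)))
    Subtype.val_injective.injOn).subset ?_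
  intro l hl
  simp only [Set.mem_preimage, Set.mem_ofPred_eq]
  by_contra h
  apply hl
  have h1 : a ∉ (l : HeightOneSpectrum (𝓞 F)).asIdeal := by
    intro h2
    apply h
    rw [Ideal.dvd_span_singleton]
    exact h2
  rw [Pi.sub_apply, Pi.mul_apply, Pi.one_apply]
  exact sub_eq_zero.mpr (hb l h1)

variable {F Λ}

/-- the representation over the product modulo finite supports, as matrices -/
def rS {Q : Type} [Group Q] {n : ℕ}
    (ρ : ∀ l : Λ, Q →* GL (Fin n) (𝓞 F ⧸ (l : HeightOneSpectrum (𝓞 F)).asIdeal)) :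
    Q →* Matrix (Fin n) (Fin n) (PR F Λ) where
  toFun q := Matrix.of fun i j => fun l => (ρ l q : Matrix (Fin n) (Fin n) _) i j
  map_one' := by
    ext i j l
    simp only [map_one, Units.val_one, Matrix.of_apply]
    by_cases h : i = j
    · subst h; simp
    · simp [Matrix.one_apply_ne h]
  map_mul' p q := by
    ext i j l
    simp only [map_mul, Units.val_mul, Matrix.of_apply, Matrix.mul_apply, Finset.sum_apply,
      Pi.mul_apply]

lemma rS_map {Q : Type} [Group Q] {n : ℕ}
    (ρ : ∀ l : Λ, Q →* GL (Fin n) (𝓞 F ⧸ (l : HeightOneSpectrum (𝓞 F)).asIdeal)) (q : Q) (l : Λ) :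
    (rS ρ q).charpoly.map (Pi.evalRingHom _ l) = (ρ l q : Matrix (Fin n) (Fin n) _).charpoly := by
  rw [← Matrix.charpoly_map]
  rfl

lemma charpoly_rS {Q : Type} [Group Q] {n : ℕ}
    (ρ : ∀ l : Λ, Q →* GL (Fin n) (𝓞 F ⧸ (l : HeightOneSpectrum (𝓞 F)).asIdeal)) (q : Q)
    (A : (𝓞 F)[X])
    (h : {l : Λ | (ρ l q : Matrix (Fin n) (Fin n) _).charpoly ≠
      A.map (Ideal.Quotient.mk (l : HeightOneSpectrum (𝓞 F)).asIdeal)}.Finite) :
    ((rS ρ q).map (Ideal.Quotient.mk (I0 F Λ))).charpoly = A.map (th F Λ) := by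
  rw [Matrix.charpoly_map]
  ext i
  rw [coeff_map, coeff_map, th, RingHom.comp_apply, Ideal.Quotient.mk_eq_mk_iff_sub_mem, mem_I0]
  refine h.subset ?_
  intro l hl hl'
  apply hl
  have h1 := congrArg (fun p => coeff p i) (rS_map ρ q l)
  beta_reduce at h1
  rw [hl', coeff_map, coeff_map] at h1
  rw [Pi.sub_apply, sub_eq_zero]
  exact h1

theorem main : Pool.Agent.W401.Gal.TaskProd := by
  intro F _ _ Λ hΛ Q _ _ n ρ ι
  classical
  have hnt := nontriv F Λ hΛ
  -- the field acts
  have hun : ∀ y : nonZeroDivisors (𝓞 F), IsUnit (th F Λ y) := fun y =>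
    th_unit F Λ y (nonZeroDivisors.coe_ne_zero y)
  let θ : F →+* SR F Λ := IsLocalization.lift hun
  have hθ : θ.comp (algebraMap (𝓞 F) F) = th F Λ := IsLocalization.lift_comp hun
  letI : Algebra F (SR F Λ) := θ.toAlgebra
  letI : Algebra F ℂ := ι.toAlgebra
  let π : PR F Λ →+* SR F Λ := Ideal.Quotient.mk (I0 F Λ)
  let B : Subalgebra F (SR F Λ) := Algebra.adjoin F
    (Set.range fun p : Q × Fin n × Fin n => π (rS ρ p.1 p.2.1 p.2.2))
  have hmem : ∀ q i j, π (rS ρ q i j) ∈ B := fun q i j =>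
    Algebra.subset_adjoin ⟨(q, i, j), rfl⟩
  have hft : Algebra.FiniteType F B := by
    rw [← Subalgebra.fg_iff_finiteType]
    exact ⟨(Set.finite_range
      (fun p : Q × Fin n × Fin n => π (rS ρ p.1 p.2.1 p.2.2))).toFinset, by simp [B]⟩
  let ρB : Q →* Matrix (Fin n) (Fin n) B :=
    { toFun := fun q => Matrix.of fun i j => ⟨π (rS ρ q i j), hmem q i j⟩
      map_one' := by
        ext i j
        by_cases h : i = j
        · subst h; simp
        · simp [Matrix.one_apply_ne h]
      map_mul' := by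
        intro p q
        ext i j
        simp only [map_mul, Matrix.of_apply, Matrix.mul_apply, map_sum]
        push_cast
        rfl }
  have hρB : ∀ q, (ρB q).map B.val = (rS ρ q).map π := fun q => rfl
  have hBnt : Nontrivial B := inferInstance
  obtain ⟨m, hm⟩ := Ideal.exists_maximal B
  letI : Field (B ⧸ m) := Ideal.Quotient.field m
  have hfq : Algebra.FiniteType F (B ⧸ m) :=
    Algebra.FiniteType.of_surjective (Ideal.Quotient.mkₐ F m) Ideal.Quotient.mk_surjective
  have hfin : Module.Finite F (B ⧸ m) := finite_of_finite_type_of_isJacobsonRing F (B ⧸ m)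
  have halg : Algebra.IsAlgebraic F (B ⧸ m) := Algebra.IsAlgebraic.of_finite F (B ⧸ m)
  let g : (B ⧸ m) →ₐ[F] ℂ := IsAlgClosed.lift
  let h : B →ₐ[F] ℂ := g.comp (Ideal.Quotient.mkₐ F m)
  let ρM : Q →* Matrix (Fin n) (Fin n) ℂ :=
    (h.mapMatrix : Matrix (Fin n) (Fin n) B →ₐ[F] Matrix (Fin n) (Fin n) ℂ).toRingHom.toMonoidHom.comp
      ρB
  refine ⟨MonoidHom.toHomUnits ρM, ?_⟩
  intro q A hA
  have h1 := charpoly_rS ρ q A hA
  have h2 : (ρB q).charpoly = (A.map (algebraMap (𝓞 F) F)).map (algebraMap F B) := by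
    have hinj : Function.Injective (Polynomial.map (B.val : B →+* SR F Λ)) :=
      Polynomial.map_injective _ Subtype.val_injective
    apply hinj
    have h3 : ((ρB q).charpoly).map (B.val : B →+* SR F Λ) =
        ((rS ρ q).map (Ideal.Quotient.mk (I0 F Λ))).charpoly := by
      rw [← Matrix.charpoly_map]
      rfl
    rw [h3, h1, Polynomial.map_map, Polynomial.map_map, ← hθ]
    rfl
  have h4 : ((MonoidHom.toHomUnits ρM q : GL (Fin n) ℂ) : Matrix (Fin n) (Fin n) ℂ) =
      (ρB q).map (h : B →+* ℂ) := rfl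
  rw [h4, Matrix.charpoly_map, h2, Polynomial.map_map, Polynomial.map_map]
  congr 1
  ext x
  simp only [RingHom.comp_apply]
  exact h.commutes _

end Pool.Agent.W375.CH
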